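import Pool.Agent.WR2.StmtsA
import Pool.Agent.WR2.StmtsB

set_option autoImplicit false

/-!
# Row CHN of squad WR2 (problem MP_0f3fac_nt)

The chain of blocks.
-/

namespace Pool.Agent.WR2.H64

open Pool.Agent.WIR Pool.Agent.WR2
open scoped BigOperators ENNReal

theorem chn (stp : StpStmt) (bst : BstStmt) : ChnStmt := by
  intro q j a ha
  induction j with
  | zero =>
    have h1 : WS 0 = {0} := by decide
    have h2 : tj q 0 = 0 := rfl
    rw [h2, zero_add, Finset.sum_range_zero, add_zero]
    unfold Tht AO
    rw [h1, Finset.sum_singleton, (stp _ a ha).1 0, if_pos rfl]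
    simp
  | succ j ih =>
    have h1 := bst (tj q j) ((tj q j + q) / 100) ((tj q j + q) / 1000)
      ((tj q (j + 1) + q) / 1000) a
    have h2 : tj q j + (tj q j + q) / 100 = tj q (j + 1) := rfl
    rw [h2] at h1
    have h3 : Eb q j a = AO (tj q j) (fun _ m => max 0 (wr ((tj q j + q) / 1000) m
        - Tht ((tj q j + q) / 100) ((tj q (j + 1) + q) / 1000) m)) a := rfl
    rw [← h3] at h1
    rw [Finset.sum_range_succ]
    linarith

end Pool.Agent.WR2.H64
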